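import Pool.Agent.Q4.SN.Stm

/-! Job FR of project SN (author helper4): real powers. -/

set_option autoImplicit false

open Filter Topology Set MeasureTheory Q4.SN

namespace Q298.SN

universe u v

theorem mult_add_vec {I : Type u} {V : Type v} [AddCommGroup V] [Module ℂ V]
    (b : Module.Basis I ℂ V) (a : I → ℝ) (f : ℝ → ℝ) (x y : V) :
    mult b a f (x + y) = mult b a f x + mult b a f y := map_add _ _ _

theorem mult_scal {I : Type u} {V : Type v} [AddCommGroup V] [Module ℂ V]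
    (b : Module.Basis I ℂ V) (a : I → ℝ) (c : ℝ) (f : ℝ → ℝ) (x : V) :
    mult b a (fun t => c * f t) x = (c : ℂ) • mult b a f x := by
  rw [← mult_const b a c (mult b a f x), mult_mult]

theorem N_scal {I : Type u} {V : Type v} [AddCommGroup V] [Module ℂ V]
    (b : Module.Basis I ℂ V) (a : I → ℝ) (N : Seminorm ℂ V) (c : ℝ) (hc : 0 ≤ c) (f : ℝ → ℝ)
    (x : V) : N (mult b a (fun t => c * f t) x) = c * N (mult b a f x) := by
  rw [mult_scal, map_smul_eq_mul, Complex.norm_real, Real.norm_of_nonneg hc]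

theorem tFr : SSC → SINT.{u, v} → SINTP.{u, v} → SFR.{u, v} := by
  intro hSC hINT hINTP I V _ _ b a N B ha hB hRes m α hα0 hαm
  obtain ⟨p1, -, -⟩ := hINTP b a N B ha hB hRes
  have hB0 : 0 < B := by linarith
  -- a general bound: `B / (1 + ρ) ≤ B ρ⁻¹`
  have hBr : ∀ (j : ℕ) (ρ : ℝ), 1 ≤ ρ → (B / (1 + ρ)) ^ j ≤ B ^ j * (ρ⁻¹) ^ j := by
    intro j ρ hρ
    rw [← mul_pow]
    refine pow_le_pow_left₀ (by positivity) ?_ j
    rw [div_eq_mul_inv]
    refine mul_le_mul_of_nonneg_left ?_ hB0.le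
    exact inv_anti₀ (by linarith) (by linarith)
  by_cases hint : ∃ k : ℕ, α = k
  · obtain ⟨k, rfl⟩ := hint
    have hkm : k ≤ m := by exact_mod_cast hαm
    refine ⟨(1 + B) ^ k * B ^ (m - k), by positivity, fun ρ x hρ => ?_⟩
    have h1 := p1 k m ρ x hkm (by linarith)
    have h2 : mult b a (fun t => t ^ (k : ℝ) / (t + ρ) ^ m) x
        = mult b a (fun t => t ^ k / (t + ρ) ^ m) x :=
      mult_congr b a (fun i => by simp only [Real.rpow_natCast]) x
    rw [h2]
    refine h1.trans ?_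
    refine mul_le_mul_of_nonneg_right ?_ (apply_nonneg N x)
    have h3 := hBr (m - k) ρ hρ
    have h4 : (ρ⁻¹) ^ (m - k) = ρ ^ ((k : ℝ) - m) := by
      rw [inv_pow, ← Real.rpow_natCast, ← Real.rpow_neg (by linarith), Nat.cast_sub hkm]
      congr 1; ring
    rw [← h4]
    calc (1 + B) ^ k * (B / (1 + ρ)) ^ (m - k) ≤ (1 + B) ^ k * (B ^ (m - k) * (ρ⁻¹) ^ (m - k)) :=
          mul_le_mul_of_nonneg_left h3 (by positivity)
      _ = (1 + B) ^ k * B ^ (m - k) * (ρ⁻¹) ^ (m - k) := by ring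
  -- the non-integer case
  push Not at hint
  set k : ℕ := ⌈α⌉₊ with hk
  have hk1 : α < k := lt_of_le_of_ne (Nat.le_ceil α) (hint k)
  have hk2 : (k : ℝ) < α + 1 := Nat.ceil_lt_add_one hα0
  have hkm : k ≤ m := Nat.ceil_le.2 hαm
  have hkpos : 1 ≤ k := by
    have : (0 : ℝ) < k := by linarith
    have h' : 0 < k := by exact_mod_cast this
    omega
  set γ : ℝ := k - α with hγ
  have hγ0 : 0 < γ := by rw [hγ]; linarith
  have hγ1 : γ < ((1 : ℕ) : ℝ) := by rw [hγ]; push_cast; linarith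
  obtain ⟨c, hc0, hc⟩ := hSC 1 γ hγ0 hγ1
  set K : ℝ := (1 + B) ^ k * B ^ (m - k + 1) with hK
  have hK0 : 0 < K := by positivity
  refine ⟨2 * K, by positivity, fun ρ x hρ => ?_⟩
  have hρ0 : 0 < ρ := by linarith
  obtain ⟨hcρ1, hcρ2⟩ := hc ρ hρ0
  have hN0 : 0 ≤ N x := apply_nonneg N x
  -- apply INT
  have hmain := hINT b a N (Ioi 0)
    (fun l t => (c⁻¹ * (t ^ k / (t + ρ) ^ m)) * (l ^ (((1 : ℕ) : ℝ) - 1 - γ) / (t + l) ^ 1))
    (fun t => t ^ α / (t + ρ) ^ m)
    (fun l => (2 * K * (ρ⁻¹) ^ (m - k) * N x * c⁻¹) * (l ^ (((1 : ℕ) : ℝ) - 1 - γ) / (ρ + l) ^ 1))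
    x measurableSet_Ioi ?_ ?_ ?_ ?_
  · refine hmain.trans (le_of_eq ?_)
    rw [integral_const_mul, hcρ2]
    have h1 : (ρ⁻¹) ^ (m - k) * ρ ^ (-γ) = ρ ^ (α - m) := by
      rw [inv_pow, ← Real.rpow_natCast, ← Real.rpow_neg hρ0.le, Nat.cast_sub hkm,
        ← Real.rpow_add hρ0]
      congr 1
      rw [hγ]; ring
    calc 2 * K * (ρ⁻¹) ^ (m - k) * N x * c⁻¹ * (c * ρ ^ (-γ))
        = 2 * K * ((ρ⁻¹) ^ (m - k) * ρ ^ (-γ)) * N x * (c⁻¹ * c) := by ring
      _ = 2 * K * ρ ^ (α - m) * N x := by rw [h1, inv_mul_cancel₀ hc0.ne', mul_one]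
  · intro i
    exact ((hc (a i) (by linarith [ha i])).1).const_mul _
  · intro i
    have hai : 0 < a i := by linarith [ha i]
    rw [integral_const_mul, (hc (a i) hai).2]
    have h1 : (a i) ^ α = (a i) ^ k * (a i) ^ (-γ) := by
      rw [← Real.rpow_natCast, ← Real.rpow_add hai]
      congr 1
      rw [hγ]; ring
    rw [h1]
    field_simp
  · exact hcρ1.const_mul _
  · intro l hl
    have hl0 : 0 < l := hl
    -- rewrite the multiplier
    have hw0 : 0 ≤ c⁻¹ * l ^ (((1 : ℕ) : ℝ) - 1 - γ) := by positivity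
    have e1 : mult b a (fun t => (c⁻¹ * (t ^ k / (t + ρ) ^ m)) *
        (l ^ (((1 : ℕ) : ℝ) - 1 - γ) / (t + l) ^ 1)) x
        = mult b a (fun t => (c⁻¹ * l ^ (((1 : ℕ) : ℝ) - 1 - γ)) *
            (t ^ k / (t + ρ) ^ m * (1 / (t + l)))) x :=
      mult_congr b a (fun i => by simp only [pow_one]; ring) x
    rw [e1, N_scal b a N _ hw0]
    have hkey : N (mult b a (fun t => t ^ k / (t + ρ) ^ m * (1 / (t + l))) x) ≤
        2 * K * (ρ⁻¹) ^ (m - k) * (1 / (ρ + l)) * N x := by
      rcases le_total l ρ with hlρ | hlρ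
      · have e2 : mult b a (fun t => t ^ k / (t + ρ) ^ m * (1 / (t + l))) x
            = mult b a (fun t => t ^ 1 / (t + l) ^ 1)
                (mult b a (fun t => t ^ (k - 1) / (t + ρ) ^ m) x) := by
          rw [mult_mult]
          refine mult_congr b a (fun i => ?_) x
          have h5 : (a i) ^ k = (a i) ^ (k - 1) * a i := by
            rw [← pow_succ, Nat.sub_add_cancel hkpos]
          simp only [pow_one]
          rw [h5]
          ring
        rw [e2]
        have h1 := p1 1 1 l (mult b a (fun t => t ^ (k - 1) / (t + ρ) ^ m) x) le_rfl hl0.le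
        have h2 := p1 (k - 1) m ρ x (by omega) hρ0.le
        have h3 : m - (k - 1) = (m - k) + 1 := by omega
        rw [h3] at h2
        simp only [Nat.sub_self, pow_zero, mul_one] at h1
        rw [pow_one] at h1
        have h4 : (B / (1 + ρ)) ^ ((m - k) + 1) ≤ B ^ (m - k + 1) * (ρ⁻¹) ^ (m - k) * (2 / (ρ + l)) := by
          rw [pow_succ, pow_succ]
          have h5 : B / (1 + ρ) ≤ B * (2 / (ρ + l)) := by
            rw [div_eq_mul_inv]
            refine mul_le_mul_of_nonneg_left ?_ hB0.le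
            rw [inv_eq_one_div, div_le_div_iff₀ (by linarith) (by linarith)]
            linarith
          calc (B / (1 + ρ)) ^ (m - k) * (B / (1 + ρ))
              ≤ (B ^ (m - k) * (ρ⁻¹) ^ (m - k)) * (B * (2 / (ρ + l))) :=
                mul_le_mul (hBr _ _ hρ) h5 (by positivity) (by positivity)
            _ = B ^ (m - k) * B * (ρ⁻¹) ^ (m - k) * (2 / (ρ + l)) := by ring
        calc N (mult b a (fun t => t ^ 1 / (t + l) ^ 1)
                (mult b a (fun t => t ^ (k - 1) / (t + ρ) ^ m) x))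
            ≤ (1 + B) * N (mult b a (fun t => t ^ (k - 1) / (t + ρ) ^ m) x) := h1
          _ ≤ (1 + B) * ((1 + B) ^ (k - 1) * (B / (1 + ρ)) ^ ((m - k) + 1) * N x) :=
              mul_le_mul_of_nonneg_left h2 (by positivity)
          _ ≤ (1 + B) * ((1 + B) ^ (k - 1) *
                (B ^ (m - k + 1) * (ρ⁻¹) ^ (m - k) * (2 / (ρ + l))) * N x) := by
              refine mul_le_mul_of_nonneg_left ?_ (by positivity)
              refine mul_le_mul_of_nonneg_right ?_ hN0
              exact mul_le_mul_of_nonneg_left h4 (by positivity)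
          _ = 2 * K * (ρ⁻¹) ^ (m - k) * (1 / (ρ + l)) * N x := by
              have h6 : (1 + B) ^ k = (1 + B) ^ (k - 1) * (1 + B) := by
                rw [← pow_succ, Nat.sub_add_cancel hkpos]
              rw [hK, h6]
              ring
      · have e2 : mult b a (fun t => t ^ k / (t + ρ) ^ m * (1 / (t + l))) x
            = mult b a (fun t => t ^ 0 / (t + l) ^ 1)
                (mult b a (fun t => t ^ k / (t + ρ) ^ m) x) := by
          rw [mult_mult]
          refine mult_congr b a (fun i => ?_) x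
          simp only [pow_one, pow_zero]
          ring
        rw [e2]
        have h1 := p1 0 1 l (mult b a (fun t => t ^ k / (t + ρ) ^ m) x) (by omega) hl0.le
        have h2 := p1 k m ρ x hkm hρ0.le
        simp only [Nat.sub_zero, pow_zero, one_mul] at h1
        rw [pow_one] at h1
        have h5 : B / (1 + l) ≤ B * (2 / (ρ + l)) := by
          rw [div_eq_mul_inv]
          refine mul_le_mul_of_nonneg_left ?_ hB0.le
          rw [inv_eq_one_div, div_le_div_iff₀ (by linarith) (by linarith)]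
          linarith
        calc N (mult b a (fun t => t ^ 0 / (t + l) ^ 1) (mult b a (fun t => t ^ k / (t + ρ) ^ m) x))
            ≤ B / (1 + l) * N (mult b a (fun t => t ^ k / (t + ρ) ^ m) x) := by
              simpa only [pow_zero] using h1
          _ ≤ (B * (2 / (ρ + l))) * ((1 + B) ^ k * (B / (1 + ρ)) ^ (m - k) * N x) :=
              mul_le_mul h5 h2 (apply_nonneg N _) (by positivity)
          _ ≤ (B * (2 / (ρ + l))) * ((1 + B) ^ k * (B ^ (m - k) * (ρ⁻¹) ^ (m - k)) * N x) := by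
              refine mul_le_mul_of_nonneg_left ?_ (by positivity)
              refine mul_le_mul_of_nonneg_right ?_ hN0
              exact mul_le_mul_of_nonneg_left (hBr _ _ hρ) (by positivity)
          _ = 2 * K * (ρ⁻¹) ^ (m - k) * (1 / (ρ + l)) * N x := by
              rw [hK, pow_succ]
              ring
    calc (c⁻¹ * l ^ (((1 : ℕ) : ℝ) - 1 - γ)) *
          N (mult b a (fun t => t ^ k / (t + ρ) ^ m * (1 / (t + l))) x)
        ≤ (c⁻¹ * l ^ (((1 : ℕ) : ℝ) - 1 - γ)) *
            (2 * K * (ρ⁻¹) ^ (m - k) * (1 / (ρ + l)) * N x) :=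
          mul_le_mul_of_nonneg_left hkey hw0
      _ = (2 * K * (ρ⁻¹) ^ (m - k) * N x * c⁻¹) * (l ^ (((1 : ℕ) : ℝ) - 1 - γ) / (ρ + l) ^ 1) := by
          rw [pow_one]; ring

end Q298.SN
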