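import Pool.Agent.Q298.SN.Fr

/-! Job KLOW of project SN (author helper4): the reverse estimate. -/

set_option autoImplicit false

open Filter Topology Set MeasureTheory Q4.SN

namespace Q298.SN

universe u v

theorem tKlow : SSC → SINT.{u, v} → SINTP.{u, v} → SFR.{u, v} → SKLOW.{u, v} := by
  intro hSC hINT hINTP hFR I V _ _ b a N0 N1 B C0 ha hB hRes0 hRes1 s w α hs0 hsw hα hemb
  obtain ⟨p1, -, -⟩ := hINTP b a N1 B ha hB hRes1
  obtain ⟨-, -, p3⟩ := hINTP b a N0 B ha hB hRes0
  have hB0 : 0 < B := by linarith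
  set β : ℝ := α - (w - s) / 2 with hβ
  have hβ0 : 0 < β := by rw [hβ]; linarith
  have hα0 : 0 < α := by linarith
  set m' : ℕ := ⌊β⌋₊ + 1 with hm'
  have hβm' : β < m' := by rw [hm']; push_cast; exact Nat.lt_floor_add_one β
  set m : ℕ := m' + ⌈w / 2⌉₊ + ⌈α⌉₊ + 1 with hm
  have hmw : (m' : ℝ) + w / 2 ≤ m := by
    rw [hm]; push_cast
    have := Nat.le_ceil (w / 2)
    have h2 : (0 : ℝ) ≤ (⌈α⌉₊ : ℝ) := Nat.cast_nonneg _
    linarith
  have hmα : α < m := by
    rw [hm]; push_cast
    have := Nat.le_ceil α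
    have h2 : (0 : ℝ) ≤ (⌈w / 2⌉₊ : ℝ) := Nat.cast_nonneg _
    have h3 : (0 : ℝ) ≤ (m' : ℝ) := Nat.cast_nonneg _
    linarith
  have hm'0 : (0 : ℝ) ≤ (m' : ℝ) := Nat.cast_nonneg _
  obtain ⟨c, hc0, hc⟩ := hSC m α hα0 hmα
  obtain ⟨c', hc'0, hc'⟩ := hSC m' β hβ0 hβm'
  obtain ⟨F, hF0, hF⟩ := hFR b a N0 B ha hB hRes0 m (w / 2) (by linarith) (by linarith)
  -- `N1` in terms of `N0`
  have hemb' : ∀ x, N1 x ≤ |C0| * N0 (mult b a (fun t => t ^ (w / 2)) x) := fun x =>
    (hemb x).trans (mul_le_mul_of_nonneg_right (le_abs_self C0) (apply_nonneg N0 _))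
  set K : ℝ := B ^ m + |C0| * ((1 + B) ^ m * F) with hK
  have hK0 : 0 < K := by positivity
  refine ⟨c⁻¹ * K * 2 ^ m' * c', by positivity, fun x r hr hdec => ?_⟩
  obtain ⟨hi1, hi2⟩ := hc' 1 one_pos
  have hmain := hINT b a N1 (Ioi 0)
    (fun l t => c⁻¹ * (l ^ ((m : ℝ) - 1 - α) / (t + l) ^ m))
    (fun t => t ^ (-α))
    (fun l => (c⁻¹ * K * 2 ^ m' * r) * (l ^ ((m' : ℝ) - 1 - β) / (1 + l) ^ m'))
    x measurableSet_Ioi ?_ ?_ ?_ ?_
  · refine hmain.trans (le_of_eq ?_)
    rw [integral_const_mul, hi2, Real.one_rpow]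
    ring
  · intro i
    exact ((hc (a i) (by linarith [ha i])).1).const_mul _
  · intro i
    have hai : 0 < a i := by linarith [ha i]
    rw [integral_const_mul, (hc (a i) hai).2]
    field_simp
  · exact hi1.const_mul _
  · intro l hl
    have hl0 : 0 < l := hl
    have hw0 : 0 ≤ c⁻¹ * l ^ ((m : ℝ) - 1 - α) := by positivity
    have e1 : mult b a (fun t => c⁻¹ * (l ^ ((m : ℝ) - 1 - α) / (t + l) ^ m)) x
        = mult b a (fun t => (c⁻¹ * l ^ ((m : ℝ) - 1 - α)) * (t ^ 0 / (t + l) ^ m)) x :=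
      mult_congr b a (fun i => by simp only [pow_zero]; ring) x
    rw [e1, N_scal b a N1 _ hw0]
    -- the two resolvent bounds on `x1`
    have hx1 : ∀ x1 : V, N1 (mult b a (fun t => t ^ 0 / (t + l) ^ m) x1) ≤
        (B / (1 + l)) ^ m * N1 x1 := by
      intro x1
      have := p1 0 m l x1 (by omega) hl0.le
      simpa only [pow_zero, one_mul, Nat.sub_zero] using this
    rcases le_total 1 l with hl1 | hl1
    · obtain ⟨x0, x1, hxx, hb⟩ := hdec l hl1
      have hsum : N1 (mult b a (fun t => t ^ 0 / (t + l) ^ m) x) ≤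
          K * (l ^ ((w - s) / 2 - m) * r) := by
        have h0 : N1 (mult b a (fun t => t ^ 0 / (t + l) ^ m) x0) ≤
            |C0| * (F * l ^ (w / 2 - m) * N0 x0) := by
          refine (hemb' _).trans ?_
          refine mul_le_mul_of_nonneg_left ?_ (abs_nonneg _)
          rw [mult_mult]
          have e2 : mult b a (fun t => t ^ (w / 2) * (t ^ 0 / (t + l) ^ m)) x0 =
              mult b a (fun t => t ^ (w / 2) / (t + l) ^ m) x0 :=
            mult_congr b a (fun i => by simp only [pow_zero]; ring) x0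
          rw [e2]
          exact hF l x0 hl1
        have h1 := hx1 x1
        have h2 : (B / (1 + l)) ^ m ≤ B ^ m * (l ^ (w / 2 - m) * l ^ (-(w / 2))) := by
          have h3 : l ^ (w / 2 - m) * l ^ (-(w / 2)) = (l⁻¹) ^ m := by
            rw [← Real.rpow_add hl0, inv_pow, ← Real.rpow_natCast, ← Real.rpow_neg hl0.le]
            congr 1; ring
          rw [h3, ← mul_pow]
          refine pow_le_pow_left₀ (by positivity) ?_ m
          rw [div_eq_mul_inv]
          refine mul_le_mul_of_nonneg_left ?_ hB0.le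
          exact inv_anti₀ hl0 (by linarith)
        have h4 : N1 (mult b a (fun t => t ^ 0 / (t + l) ^ m) x) ≤
            |C0| * (F * l ^ (w / 2 - m) * N0 x0) + (B / (1 + l)) ^ m * N1 x1 := by
          rw [hxx, mult_add_vec]
          refine (map_add_le_add N1 _ _).trans ?_
          linarith
        have hN0x : 0 ≤ N0 x0 := apply_nonneg _ _
        have hN1x : 0 ≤ N1 x1 := apply_nonneg _ _
        have hlp : 0 < l ^ (w / 2 - m) := Real.rpow_pos_of_pos hl0 _
        have hlq : 0 < l ^ (-(w / 2)) := Real.rpow_pos_of_pos hl0 _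
        have h5 : (B / (1 + l)) ^ m * N1 x1 ≤ B ^ m * (l ^ (w / 2 - m) * l ^ (-(w / 2))) * N1 x1 :=
          mul_le_mul_of_nonneg_right h2 hN1x
        have h6 : |C0| * (F * l ^ (w / 2 - m) * N0 x0) ≤ K * (l ^ (w / 2 - m) * N0 x0) := by
          have h7 : |C0| * F ≤ K := by
            rw [hK]
            have h8 : F ≤ (1 + B) ^ m * F := by
              have : (1 : ℝ) ≤ (1 + B) ^ m := one_le_pow₀ (by linarith)
              nlinarith
            have h9 : |C0| * F ≤ |C0| * ((1 + B) ^ m * F) :=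
              mul_le_mul_of_nonneg_left h8 (abs_nonneg _)
            have : 0 < B ^ m := by positivity
            linarith
          calc |C0| * (F * l ^ (w / 2 - m) * N0 x0) = (|C0| * F) * (l ^ (w / 2 - m) * N0 x0) := by ring
            _ ≤ K * (l ^ (w / 2 - m) * N0 x0) := mul_le_mul_of_nonneg_right h7 (by positivity)
        have h7 : B ^ m * (l ^ (w / 2 - m) * l ^ (-(w / 2))) * N1 x1 ≤
            K * (l ^ (w / 2 - m) * (l ^ (-(w / 2)) * N1 x1)) := by
          have h8 : B ^ m ≤ K := by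
            rw [hK]
            have : 0 ≤ |C0| * ((1 + B) ^ m * F) := by positivity
            linarith
          calc B ^ m * (l ^ (w / 2 - m) * l ^ (-(w / 2))) * N1 x1
              = B ^ m * (l ^ (w / 2 - m) * (l ^ (-(w / 2)) * N1 x1)) := by ring
            _ ≤ K * (l ^ (w / 2 - m) * (l ^ (-(w / 2)) * N1 x1)) :=
              mul_le_mul_of_nonneg_right h8 (by positivity)
        have h8 : l ^ ((w - s) / 2 - m) = l ^ (w / 2 - m) * l ^ (-(s / 2)) := by
          rw [← Real.rpow_add hl0]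
          congr 1; ring
        calc N1 (mult b a (fun t => t ^ 0 / (t + l) ^ m) x)
            ≤ K * (l ^ (w / 2 - m) * N0 x0) + K * (l ^ (w / 2 - m) * (l ^ (-(w / 2)) * N1 x1)) := by
              linarith
          _ = K * (l ^ (w / 2 - m) * (N0 x0 + l ^ (-(w / 2)) * N1 x1)) := by ring
          _ ≤ K * (l ^ (w / 2 - m) * (l ^ (-(s / 2)) * r)) :=
              mul_le_mul_of_nonneg_left (mul_le_mul_of_nonneg_left hb hlp.le) hK0.le
          _ = K * (l ^ ((w - s) / 2 - m) * r) := by rw [h8]; ring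
      have h9 : l ^ ((m : ℝ) - 1 - α) * l ^ ((w - s) / 2 - m) ≤
          2 ^ m' * (l ^ ((m' : ℝ) - 1 - β) / (1 + l) ^ m') := by
        have e3 : l ^ ((m : ℝ) - 1 - α) * l ^ ((w - s) / 2 - m) = l ^ (-1 - β) := by
          rw [← Real.rpow_add hl0]
          congr 1
          rw [hβ]; ring
        have e4 : l ^ ((m' : ℝ) - 1 - β) = l ^ m' * l ^ (-1 - β) := by
          rw [← Real.rpow_natCast, ← Real.rpow_add hl0]
          congr 1; ring
        rw [e3, e4, mul_div_assoc', le_div_iff₀ (by positivity)]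
        have h10 : (1 + l) ^ m' ≤ 2 ^ m' * l ^ m' := by
          rw [← mul_pow]
          exact pow_le_pow_left₀ (by linarith) (by linarith) m'
        calc l ^ (-1 - β) * (1 + l) ^ m' ≤ l ^ (-1 - β) * (2 ^ m' * l ^ m') :=
              mul_le_mul_of_nonneg_left h10 (by positivity)
          _ = 2 ^ m' * (l ^ m' * l ^ (-1 - β)) := by ring
      calc c⁻¹ * l ^ ((m : ℝ) - 1 - α) * N1 (mult b a (fun t => t ^ 0 / (t + l) ^ m) x)
          ≤ c⁻¹ * l ^ ((m : ℝ) - 1 - α) * (K * (l ^ ((w - s) / 2 - m) * r)) :=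
            mul_le_mul_of_nonneg_left hsum hw0
        _ = (c⁻¹ * K * r) * (l ^ ((m : ℝ) - 1 - α) * l ^ ((w - s) / 2 - m)) := by ring
        _ ≤ (c⁻¹ * K * r) * (2 ^ m' * (l ^ ((m' : ℝ) - 1 - β) / (1 + l) ^ m')) :=
            mul_le_mul_of_nonneg_left h9 (by positivity)
        _ = (c⁻¹ * K * 2 ^ m' * r) * (l ^ ((m' : ℝ) - 1 - β) / (1 + l) ^ m') := by ring
    · obtain ⟨x0, x1, hxx, hb⟩ := hdec 1 le_rfl
      rw [Real.one_rpow, Real.one_rpow, one_mul, one_mul] at hb
      have hsum : N1 (mult b a (fun t => t ^ 0 / (t + l) ^ m) x) ≤ K * r := by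
        have h0 : N1 (mult b a (fun t => t ^ 0 / (t + l) ^ m) x0) ≤
            |C0| * ((1 + B) ^ m * (F * N0 x0)) := by
          refine (hemb' _).trans ?_
          refine mul_le_mul_of_nonneg_left ?_ (abs_nonneg _)
          have e2 : mult b a (fun t => t ^ (w / 2)) (mult b a (fun t => t ^ 0 / (t + l) ^ m) x0) =
              mult b a (fun t => ((t + 1) / (t + l)) ^ m)
                (mult b a (fun t => t ^ (w / 2) / (t + 1) ^ m) x0) := by
            rw [mult_mult, mult_mult]
            refine mult_congr b a (fun i => ?_) x0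
            have hai : 0 < a i := by linarith [ha i]
            have h1 : a i + 1 ≠ 0 := by positivity
            have h2 : a i + l ≠ 0 := by positivity
            simp only [pow_zero]
            rw [div_pow]
            field_simp
          rw [e2]
          refine (p3 m l _ hl0.le hl1).trans ?_
          refine mul_le_mul_of_nonneg_left ?_ (by positivity)
          have h3 := hF 1 x0 le_rfl
          rwa [Real.one_rpow, mul_one] at h3
        have h1 := hx1 x1
        have h2 : (B / (1 + l)) ^ m ≤ B ^ m := by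
          refine pow_le_pow_left₀ (by positivity) ?_ m
          rw [div_le_iff₀ (by linarith)]
          nlinarith
        have h4 : N1 (mult b a (fun t => t ^ 0 / (t + l) ^ m) x) ≤
            |C0| * ((1 + B) ^ m * (F * N0 x0)) + (B / (1 + l)) ^ m * N1 x1 := by
          rw [hxx, mult_add_vec]
          refine (map_add_le_add N1 _ _).trans ?_
          linarith
        have hN0x : 0 ≤ N0 x0 := apply_nonneg _ _
        have hN1x : 0 ≤ N1 x1 := apply_nonneg _ _
        have h5 : (B / (1 + l)) ^ m * N1 x1 ≤ B ^ m * N1 x1 :=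
          mul_le_mul_of_nonneg_right h2 hN1x
        have h6 : |C0| * ((1 + B) ^ m * (F * N0 x0)) ≤ K * N0 x0 := by
          calc |C0| * ((1 + B) ^ m * (F * N0 x0)) = (|C0| * ((1 + B) ^ m * F)) * N0 x0 := by ring
            _ ≤ K * N0 x0 := by
              refine mul_le_mul_of_nonneg_right ?_ hN0x
              rw [hK]
              have : 0 < B ^ m := by positivity
              linarith
        have h7 : B ^ m * N1 x1 ≤ K * N1 x1 := by
          refine mul_le_mul_of_nonneg_right ?_ hN1x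
          rw [hK]
          have : 0 ≤ |C0| * ((1 + B) ^ m * F) := by positivity
          linarith
        calc N1 (mult b a (fun t => t ^ 0 / (t + l) ^ m) x) ≤ K * N0 x0 + K * N1 x1 := by linarith
          _ = K * (N0 x0 + N1 x1) := by ring
          _ ≤ K * r := mul_le_mul_of_nonneg_left hb hK0.le
      have h9 : l ^ ((m : ℝ) - 1 - α) ≤ 2 ^ m' * (l ^ ((m' : ℝ) - 1 - β) / (1 + l) ^ m') := by
        have h10 : l ^ ((m : ℝ) - 1 - α) ≤ l ^ ((m' : ℝ) - 1 - β) :=
          Real.rpow_le_rpow_of_exponent_ge hl0 hl1 (by rw [hβ]; linarith)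
        have h11 : (1 + l) ^ m' ≤ 2 ^ m' := pow_le_pow_left₀ (by linarith) (by linarith) m'
        rw [mul_div_assoc', le_div_iff₀ (by positivity)]
        calc l ^ ((m : ℝ) - 1 - α) * (1 + l) ^ m' ≤ l ^ ((m' : ℝ) - 1 - β) * 2 ^ m' :=
              mul_le_mul h10 h11 (by positivity) (by positivity)
          _ = 2 ^ m' * l ^ ((m' : ℝ) - 1 - β) := by ring
      calc c⁻¹ * l ^ ((m : ℝ) - 1 - α) * N1 (mult b a (fun t => t ^ 0 / (t + l) ^ m) x)
          ≤ c⁻¹ * l ^ ((m : ℝ) - 1 - α) * (K * r) := mul_le_mul_of_nonneg_left hsum hw0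
        _ = (c⁻¹ * K * r) * l ^ ((m : ℝ) - 1 - α) := by ring
        _ ≤ (c⁻¹ * K * r) * (2 ^ m' * (l ^ ((m' : ℝ) - 1 - β) / (1 + l) ^ m')) :=
            mul_le_mul_of_nonneg_left h9 (by positivity)
        _ = (c⁻¹ * K * 2 ^ m' * r) * (l ^ ((m' : ℝ) - 1 - β) / (1 + l) ^ m') := by ring

end Q298.SN
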