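import Pool.Agent.Q298.SN.Fr

/-! Job KUP of project SN (author helper4): decomposition into low and high frequencies. -/

set_option autoImplicit false

open Filter Topology Set MeasureTheory Q4.SN

namespace Q298.SN

universe u v

/-- a family of multipliers bounded uniformly in `ρ ≥ 1` -/
def UB {I : Type u} {V : Type v} [AddCommGroup V] [Module ℂ V]
    (b : Module.Basis I ℂ V) (a : I → ℝ) (N : Seminorm ℂ V) (F : ℝ → ℝ → ℝ) : Prop :=
  ∃ C : ℝ, 0 ≤ C ∧ ∀ (ρ : ℝ) (x : V), 1 ≤ ρ → N (mult b a (F ρ) x) ≤ C * N x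

section

variable {I : Type u} {V : Type v} [AddCommGroup V] [Module ℂ V]
    (b : Module.Basis I ℂ V) (a : I → ℝ) (N : Seminorm ℂ V)

theorem UB_one : UB b a N (fun _ _ => 1) := by
  refine ⟨1, zero_le_one, fun ρ x _ => ?_⟩
  rw [mult_const]
  simp

theorem UB_add (F G : ℝ → ℝ → ℝ) (hF : UB b a N F) (hG : UB b a N G) :
    UB b a N (fun ρ t => F ρ t + G ρ t) := by
  obtain ⟨C, hC, h1⟩ := hF
  obtain ⟨D, hD, h2⟩ := hG
  refine ⟨C + D, by positivity, fun ρ x hρ => ?_⟩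
  rw [mult_add]
  refine (map_add_le_add N _ _).trans ?_
  have := h1 ρ x hρ
  have := h2 ρ x hρ
  linarith

theorem UB_sub (F G : ℝ → ℝ → ℝ) (hF : UB b a N F) (hG : UB b a N G) :
    UB b a N (fun ρ t => F ρ t - G ρ t) := by
  obtain ⟨C, hC, h1⟩ := hF
  obtain ⟨D, hD, h2⟩ := hG
  refine ⟨C + D, by positivity, fun ρ x hρ => ?_⟩
  rw [mult_sub]
  refine (map_sub_le_add N _ _).trans ?_
  have := h1 ρ x hρ
  have := h2 ρ x hρ
  linarith

theorem UB_mul (F G : ℝ → ℝ → ℝ) (hF : UB b a N F) (hG : UB b a N G) :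
    UB b a N (fun ρ t => F ρ t * G ρ t) := by
  obtain ⟨C, hC, h1⟩ := hF
  obtain ⟨D, hD, h2⟩ := hG
  refine ⟨C * D, by positivity, fun ρ x hρ => ?_⟩
  rw [← mult_mult]
  refine (h1 ρ _ hρ).trans ?_
  rw [mul_assoc]
  exact mul_le_mul_of_nonneg_left (h2 ρ x hρ) hC

theorem UB_pow (F : ℝ → ℝ → ℝ) (hF : UB b a N F) (n : ℕ) :
    UB b a N (fun ρ t => F ρ t ^ n) := by
  induction n with
  | zero => simpa only [pow_zero] using UB_one b a N
  | succ n ih =>
    simp only [pow_succ]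
    exact UB_mul b a N _ _ ih hF

theorem UB_sum (F : ℕ → ℝ → ℝ → ℝ) (hF : ∀ j, UB b a N (F j)) (n : ℕ) :
    UB b a N (fun ρ t => ∑ j ∈ Finset.range n, F j ρ t) := by
  induction n with
  | zero =>
    refine ⟨0, le_rfl, fun ρ x _ => ?_⟩
    simp only [Finset.range_zero, Finset.sum_empty]
    rw [mult_const]
    simp
  | succ n ih =>
    simp only [Finset.sum_range_succ]
    exact UB_add b a N _ _ ih (hF n)

end

theorem tKup : SFR.{u, v} → SINTP.{u, v} → SKUP.{u, v} := by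
  intro hFR hINTP I V _ _ b a N B ha hB hRes s w hs0 hsw
  obtain ⟨-, p2, -⟩ := hINTP b a N B ha hB hRes
  have hB0 : 0 < B := by linarith
  set m : ℕ := ⌈w / 2⌉₊ with hm
  have hwm : w / 2 ≤ m := Nat.le_ceil _
  obtain ⟨C1, hC1, f1⟩ := hFR b a N B ha hB hRes m (m - s / 2) (by linarith) (by linarith)
  obtain ⟨C2, hC2, f2⟩ := hFR b a N B ha hB hRes m ((w - s) / 2) (by linarith) (by linarith)
  have hz : UB b a N (fun ρ t => ρ / (t + ρ)) := by
    refine ⟨B, hB0.le, fun ρ x hρ => ?_⟩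
    have := p2 1 ρ x (by linarith)
    simpa only [pow_one] using this
  have hQ : UB b a N (fun ρ t => (∑ j ∈ Finset.range m, (ρ / (t + ρ)) ^ j) ^ m) :=
    UB_pow b a N _ (UB_sum b a N _ (fun j => UB_pow b a N _ hz j) m) m
  have hR : UB b a N (fun ρ t => ∑ j ∈ Finset.range m, (1 - (ρ / (t + ρ)) ^ m) ^ j) :=
    UB_sum b a N _ (fun j => UB_pow b a N _ (UB_sub b a N _ _ (UB_one b a N)
      (UB_pow b a N _ hz m)) j) m
  obtain ⟨D1, hD1, q1⟩ := hQ
  obtain ⟨D2, hD2, q2⟩ := hR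
  refine ⟨D1 * C1 + D2 * C2, by positivity, fun ρ x hρ => ?_⟩
  have hρ0 : 0 < ρ := by linarith
  set y : V := mult b a (fun t => t ^ (s / 2)) x with hy
  have hNy : 0 ≤ N y := apply_nonneg N y
  refine ⟨mult b a (fun t => (1 - (ρ / (t + ρ)) ^ m) ^ m) x,
    mult b a (fun t => 1 - (1 - (ρ / (t + ρ)) ^ m) ^ m) x, ?_, ?_, ?_⟩
  · rw [← mult_add]
    have : mult b a (fun t => (1 - (ρ / (t + ρ)) ^ m) ^ m + (1 - (1 - (ρ / (t + ρ)) ^ m) ^ m)) x
        = mult b a (fun _ => 1) x := mult_congr b a (fun i => by ring) x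
    rw [this, mult_const]
    simp
  · have e : mult b a (fun t => (1 - (ρ / (t + ρ)) ^ m) ^ m) x =
        mult b a (fun t => (∑ j ∈ Finset.range m, (ρ / (t + ρ)) ^ j) ^ m)
          (mult b a (fun t => t ^ ((m : ℝ) - s / 2) / (t + ρ) ^ m) y) := by
      rw [hy, mult_mult, mult_mult]
      refine mult_congr b a (fun i => ?_) x
      have hai : 0 < a i := by linarith [ha i]
      have h1 : 1 - (ρ / (a i + ρ)) ^ m =
          (1 - ρ / (a i + ρ)) * ∑ j ∈ Finset.range m, (ρ / (a i + ρ)) ^ j := by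
        rw [mul_comm, geom_sum_mul_neg]
      have h2 : 1 - ρ / (a i + ρ) = a i / (a i + ρ) := by
        have : a i + ρ ≠ 0 := by positivity
        field_simp; ring
      have h3 : (a i) ^ ((m : ℝ) - s / 2) * (a i) ^ (s / 2) = (a i) ^ m := by
        rw [← Real.rpow_add hai, ← Real.rpow_natCast]
        congr 1; ring
      rw [h1, h2, mul_pow, div_pow, ← h3]
      ring
    rw [e]
    refine (q1 ρ _ hρ).trans ?_
    have h1 := f1 ρ y hρ
    have h2 : (m : ℝ) - s / 2 - m = -(s / 2) := by ring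
    rw [h2] at h1
    calc D1 * N (mult b a (fun t => t ^ ((m : ℝ) - s / 2) / (t + ρ) ^ m) y)
        ≤ D1 * (C1 * ρ ^ (-(s / 2)) * N y) := mul_le_mul_of_nonneg_left h1 hD1
      _ = (D1 * C1) * (ρ ^ (-(s / 2)) * N y) := by ring
      _ ≤ (D1 * C1 + D2 * C2) * (ρ ^ (-(s / 2)) * N y) := by
          refine mul_le_mul_of_nonneg_right ?_ (by positivity)
          have := mul_nonneg hD2 hC2
          linarith
      _ = (D1 * C1 + D2 * C2) * ρ ^ (-(s / 2)) * N y := by ring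
  · have e : mult b a (fun t => t ^ (w / 2)) (mult b a (fun t => 1 - (1 - (ρ / (t + ρ)) ^ m) ^ m) x) =
        mult b a (fun t => ∑ j ∈ Finset.range m, (1 - (ρ / (t + ρ)) ^ m) ^ j)
          (mult b a (fun t => ρ ^ m * (t ^ ((w - s) / 2) / (t + ρ) ^ m)) y) := by
      rw [hy, mult_mult, mult_mult, mult_mult]
      refine mult_congr b a (fun i => ?_) x
      have hai : 0 < a i := by linarith [ha i]
      have h1 : 1 - (1 - (ρ / (a i + ρ)) ^ m) ^ m =
          (ρ / (a i + ρ)) ^ m * ∑ j ∈ Finset.range m, (1 - (ρ / (a i + ρ)) ^ m) ^ j := by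
        have h2 := geom_sum_mul_neg (1 - (ρ / (a i + ρ)) ^ m) m
        rw [← h2]; ring
      have h3 : (a i) ^ ((w - s) / 2) * (a i) ^ (s / 2) = (a i) ^ (w / 2) := by
        rw [← Real.rpow_add hai]
        congr 1; ring
      rw [h1, ← h3, div_pow]
      ring
    rw [e]
    refine (q2 ρ _ hρ).trans ?_
    rw [N_scal b a N _ (by positivity)]
    have h1 := f2 ρ y hρ
    have h2 : ρ ^ m * ρ ^ ((w - s) / 2 - m) = ρ ^ ((w - s) / 2) := by
      rw [← Real.rpow_natCast, ← Real.rpow_add hρ0]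
      congr 1; ring
    calc D2 * (ρ ^ m * N (mult b a (fun t => t ^ ((w - s) / 2) / (t + ρ) ^ m) y))
        ≤ D2 * (ρ ^ m * (C2 * ρ ^ ((w - s) / 2 - m) * N y)) :=
          mul_le_mul_of_nonneg_left (mul_le_mul_of_nonneg_left h1 (by positivity)) hD2
      _ = (D2 * C2) * ((ρ ^ m * ρ ^ ((w - s) / 2 - m)) * N y) := by ring
      _ = (D2 * C2) * (ρ ^ ((w - s) / 2) * N y) := by rw [h2]
      _ ≤ (D1 * C1 + D2 * C2) * (ρ ^ ((w - s) / 2) * N y) := by
          refine mul_le_mul_of_nonneg_right ?_ (by positivity)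
          have := mul_nonneg hD1 hC1
          linarith
      _ = (D1 * C1 + D2 * C2) * ρ ^ ((w - s) / 2) * N y := by ring

end Q298.SN
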